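import Pool.Agent.U115.WN.Stm

/-!
Package FAMQ of project WN: quadratic forms on well-rounded lattices.
-/

set_option autoImplicit false

open Matrix

namespace Pool.Agent.U803.WN

open Pool.Agent.U115.WM Pool.Agent.U115.WN

lemma adj_bound {k' : ℕ} (G : Matrix (Fin (k' + 1)) (Fin (k' + 1)) ℤ) (X : ℝ) (hG : ∀ i j, |(G i j : ℝ)| ≤ X)
    (i j : Fin (k' + 1)) : |((G.adjugate i j : ℤ) : ℝ)| ≤ (k'.factorial : ℝ) * X ^ k' := by
  rw [Matrix.adjugate_fin_succ_eq_det_submatrix]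
  push_cast
  rw [abs_mul, abs_pow, abs_neg, abs_one, one_pow, one_mul]
  have h := Matrix.det_le (A := (G.submatrix j.succAbove i.succAbove).map (Int.cast : ℤ → ℝ))
    (abv := AbsoluteValue.abs) (x := X) (fun a b => by
      rw [Matrix.map_apply, Matrix.submatrix_apply]
      exact hG _ _)
  rw [Fintype.card_fin, nsmul_eq_mul] at h
  exact h

lemma gram_bound {n k : ℕ} (B : Matrix (Fin n) (Fin k) ℤ) {X : ℝ} (hX : 0 ≤ X) (hN : ∀ i, (N B i : ℝ) ≤ X)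
    (i j : Fin k) : |(((Bᵀ * B) i j : ℤ) : ℝ)| ≤ X := by
  have h1 : (((Bᵀ * B) i j : ℤ) : ℝ) = ∑ l, (B l i : ℝ) * (B l j : ℝ) := by
    rw [Matrix.mul_apply]
    push_cast
    rfl
  have h2 := Finset.sum_mul_sq_le_sq_mul_sq Finset.univ (fun l => (B l i : ℝ)) (fun l => (B l j : ℝ))
  have h3 : ∀ i, ∑ l, (B l i : ℝ) ^ 2 = (N B i : ℝ) := by
    intro i
    unfold N
    push_cast
    rfl
  rw [h3, h3] at h2
  rw [h1]
  apply abs_le_of_sq_le_sq _ hX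
  refine h2.trans ?_
  have h4 : ∀ i, (0 : ℝ) ≤ (N B i : ℝ) := fun i => by
    rw [← h3 i]
    positivity
  calc (N B i : ℝ) * (N B j : ℝ) ≤ X * X := mul_le_mul (hN i) (hN j) (h4 j) hX
    _ = X ^ 2 := by ring

lemma Bt_bound {n k : ℕ} (B : Matrix (Fin n) (Fin k) ℤ) {X : ℝ} (hN : ∀ i, (N B i : ℝ) ≤ X)
    (v : Fin n → ℤ) (j : Fin k) : (((Bᵀ *ᵥ v) j : ℤ) : ℝ) ^ 2 ≤ X * ∑ l, (v l : ℝ) ^ 2 := by
  have h1 : (((Bᵀ *ᵥ v) j : ℤ) : ℝ) = ∑ l, (B l j : ℝ) * (v l : ℝ) := by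
    rw [Matrix.mulVec, dotProduct]
    push_cast
    rfl
  have h2 := Finset.sum_mul_sq_le_sq_mul_sq Finset.univ (fun l => (B l j : ℝ)) (fun l => (v l : ℝ))
  have h3 : ∑ l, (B l j : ℝ) ^ 2 = (N B j : ℝ) := by
    unfold N
    push_cast
    rfl
  rw [h3] at h2
  rw [h1]
  refine h2.trans ?_
  exact mul_le_mul_of_nonneg_right (hN j) (by positivity)

lemma cramer_bound {n k' : ℕ} (B : Matrix (Fin n) (Fin (k' + 1)) ℤ) {X : ℝ} (hX : 0 ≤ X)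
    (hN : ∀ i, (N B i : ℝ) ≤ X) (x : Fin (k' + 1) → ℤ) (i : Fin (k' + 1)) :
    ((((Bᵀ * B).det : ℤ) : ℝ) * (x i : ℝ)) ^ 2 ≤
      ((k' : ℝ) + 1) ^ 2 * ((k'.factorial : ℝ) * X ^ k') ^ 2 * X * ∑ l, ((B *ᵥ x) l : ℝ) ^ 2 := by
  set v := B *ᵥ x with hv
  set G := Bᵀ * B with hG
  have h1 : G.adjugate *ᵥ (Bᵀ *ᵥ v) = G.det • x := by
    rw [hv, Matrix.mulVec_mulVec, Matrix.mulVec_mulVec, Matrix.mul_assoc, ← hG,
      Matrix.adjugate_mul, Matrix.smul_mulVec, Matrix.one_mulVec]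
  have h2 : ((G.det : ℤ) : ℝ) * (x i : ℝ) = ∑ j, ((G.adjugate i j : ℤ) : ℝ) * (((Bᵀ *ᵥ v) j : ℤ) : ℝ) := by
    have h3 := congrFun h1 i
    rw [Pi.smul_apply, smul_eq_mul] at h3
    have h4 : ((G.det * x i : ℤ) : ℝ) = (((G.adjugate *ᵥ (Bᵀ *ᵥ v)) i : ℤ) : ℝ) := by rw [h3]
    rw [Matrix.mulVec, dotProduct, Int.cast_mul, Int.cast_sum] at h4
    simp only [Int.cast_mul] at h4
    exact h4
  rw [h2]
  have h5 := Finset.sum_mul_sq_le_sq_mul_sq Finset.univ (fun j => ((G.adjugate i j : ℤ) : ℝ))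
    (fun j => (((Bᵀ *ᵥ v) j : ℤ) : ℝ))
  refine h5.trans ?_
  have h6 : ∑ j, ((G.adjugate i j : ℤ) : ℝ) ^ 2 ≤ ((k' : ℝ) + 1) * ((k'.factorial : ℝ) * X ^ k') ^ 2 := by
    have : ∀ j ∈ Finset.univ, ((G.adjugate i j : ℤ) : ℝ) ^ 2 ≤ ((k'.factorial : ℝ) * X ^ k') ^ 2 := by
      intro j _
      rw [← sq_abs]
      exact pow_le_pow_left₀ (abs_nonneg _) (adj_bound G X (gram_bound B hX hN) i j) 2
    have h7 := Finset.sum_le_sum this
    rw [Finset.sum_const, Finset.card_univ, Fintype.card_fin, nsmul_eq_mul] at h7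
    push_cast at h7
    exact h7
  have h8 : ∑ j, (((Bᵀ *ᵥ v) j : ℤ) : ℝ) ^ 2 ≤ ((k' : ℝ) + 1) * (X * ∑ l, (v l : ℝ) ^ 2) := by
    have h9 := Finset.sum_le_sum (s := Finset.univ) (fun j (_ : j ∈ Finset.univ) => Bt_bound B hN v j)
    rw [Finset.sum_const, Finset.card_univ, Fintype.card_fin, nsmul_eq_mul] at h9
    push_cast at h9
    exact h9
  calc (∑ j, ((G.adjugate i j : ℤ) : ℝ) ^ 2) * ∑ j, (((Bᵀ *ᵥ v) j : ℤ) : ℝ) ^ 2
      ≤ (((k' : ℝ) + 1) * ((k'.factorial : ℝ) * X ^ k') ^ 2) * (((k' : ℝ) + 1) * (X * ∑ l, (v l : ℝ) ^ 2)) :=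
        mul_le_mul h6 h8 (by positivity) (by positivity)
    _ = _ := by ring

lemma form_bound {k : ℕ} (c : Matrix (Fin k) (Fin k) ℤ) (q : ℝ) (hc : ∀ i j, |(c i j : ℝ)| ≤ q)
    (x : Fin k → ℤ) {Y : ℝ} (hx : ∀ i, (x i : ℝ) ^ 2 ≤ Y) :
    |((∑ i, ∑ j, c i j * x i * x j : ℤ) : ℝ)| ≤ (k : ℝ) ^ 2 * (q * Y) := by
  push_cast
  have h1 : ∀ i j, |(c i j : ℝ) * (x i : ℝ) * (x j : ℝ)| ≤ q * Y := by
    intro i j
    have h2 : |(x i : ℝ) * (x j : ℝ)| ≤ Y := by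
      rw [abs_le]
      constructor
      · nlinarith [hx i, hx j, sq_nonneg ((x i : ℝ) + x j)]
      · nlinarith [hx i, hx j, sq_nonneg ((x i : ℝ) - x j)]
    rw [mul_assoc, abs_mul]
    exact mul_le_mul (hc i j) h2 (abs_nonneg _) ((abs_nonneg _).trans (hc i j))
  calc |∑ i, ∑ j, (c i j : ℝ) * (x i : ℝ) * (x j : ℝ)| ≤ ∑ i, |∑ j, (c i j : ℝ) * (x i : ℝ) * (x j : ℝ)| :=
        Finset.abs_sum_le_sum_abs _ _
    _ ≤ ∑ i, ∑ j, |(c i j : ℝ) * (x i : ℝ) * (x j : ℝ)| :=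
        Finset.sum_le_sum fun i _ => Finset.abs_sum_le_sum_abs _ _
    _ ≤ ∑ _i : Fin k, ∑ _j : Fin k, q * Y := Finset.sum_le_sum fun i _ => Finset.sum_le_sum fun j _ => h1 i j
    _ = _ := by
        rw [Finset.sum_const, Finset.sum_const, Finset.card_univ, Fintype.card_fin, nsmul_eq_mul, nsmul_eq_mul]
        ring

theorem t_FAMQ : S_FAMQ := by
  classical
  intro n k η C hk hη hC
  obtain ⟨k', rfl⟩ : ∃ k', k = k' + 1 := ⟨k - 1, by omega⟩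
  set D : ℝ := ((k' : ℝ) + 1) ^ 2 * (k'.factorial : ℝ) ^ 2 * C ^ (2 * k' + 1) / η ^ 4 with hD
  have hC0 : 0 < C := by linarith
  have hfac : (0 : ℝ) < (k'.factorial : ℝ) := by exact_mod_cast Nat.factorial_pos k'
  have hD0 : 0 < D := by positivity
  refine ⟨((k' : ℝ) + 1) ^ 2 * D, by positivity, ?_⟩
  intro lam q B c hlam hq hInj hSat hcov hN hup hdet hprim hcq
  have hlam0 : (0 : ℝ) < lam := by exact_mod_cast hlam
  -- the form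
  let f : (Fin n → ℤ) → ℤ := fun v => if h : v ∈ lat B then
    ∑ i, ∑ j, c i j * (Classical.choose h) i * (Classical.choose h) j else 0
  have hf : IsForm B c f := by
    refine ⟨hup, fun x => ?_, fun v hv => dif_neg hv⟩
    have hmem : B *ᵥ x ∈ lat B := ⟨x, rfl⟩
    have h1 : Classical.choose hmem = x := by
      have h2 : B *ᵥ Classical.choose hmem = B *ᵥ x := Classical.choose_spec hmem
      have h3 := hInj (Classical.choose hmem - x) (by rw [Matrix.mulVec_sub, h2, sub_self])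
      exact sub_eq_zero.1 h3
    show (if h : B *ᵥ x ∈ lat B then
      ∑ i, ∑ j, c i j * (Classical.choose h) i * (Classical.choose h) j else 0) = _
    rw [dif_pos hmem, h1]
  refine ⟨⟨lat B, f, B, c, hInj, rfl, hSat, hf, hdet, hprim⟩, rfl, hf, ?_⟩
  intro v hv
  obtain ⟨x, rfl⟩ := hv
  show |((f (B *ᵥ x) : ℤ) : ℝ)| ≤ _
  rw [hf.2.1 x]
  set X : ℝ := C * (lam : ℝ) ^ 2 with hX
  have hX0 : 0 ≤ X := by positivity
  set Yv : ℝ := ∑ l, ((B *ᵥ x) l : ℝ) ^ 2 with hYv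
  have hYv0 : 0 ≤ Yv := by positivity
  -- the determinant
  have hdetG : (η * (lam : ℝ) ^ (k' + 1)) ^ 2 ≤ (((Bᵀ * B).det : ℤ) : ℝ) := by
    unfold cov at hcov
    have h1 : 0 < η * (lam : ℝ) ^ (k' + 1) := by positivity
    have h2 : 0 < √(((Bᵀ * B).det : ℤ) : ℝ) := lt_of_lt_of_le h1 hcov
    have h3 := pow_le_pow_left₀ h1.le hcov 2
    rwa [Real.sq_sqrt (Real.sqrt_pos.1 h2).le] at h3
  have hxi : ∀ i, (x i : ℝ) ^ 2 ≤ D * (lam : ℝ) ^ (-2 : ℝ) * Yv := by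
    intro i
    have h1 := cramer_bound B hX0 hN x i
    rw [← hYv, mul_pow] at h1
    have h2 : ((η * (lam : ℝ) ^ (k' + 1)) ^ 2) ^ 2 ≤ ((((Bᵀ * B).det : ℤ) : ℝ)) ^ 2 :=
      pow_le_pow_left₀ (by positivity) hdetG 2
    have h3 : ((η * (lam : ℝ) ^ (k' + 1)) ^ 2) ^ 2 * (x i : ℝ) ^ 2 ≤
        ((k' : ℝ) + 1) ^ 2 * ((k'.factorial : ℝ) * X ^ k') ^ 2 * X * Yv :=
      (mul_le_mul_of_nonneg_right h2 (sq_nonneg _)).trans h1
    have h4 : (lam : ℝ) ^ (-2 : ℝ) = ((lam : ℝ) ^ 2)⁻¹ := by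
      rw [Real.rpow_neg hlam0.le]
      norm_num
    have h5 : ((k' : ℝ) + 1) ^ 2 * ((k'.factorial : ℝ) * X ^ k') ^ 2 * X * Yv =
        ((η * (lam : ℝ) ^ (k' + 1)) ^ 2) ^ 2 * (D * (lam : ℝ) ^ (-2 : ℝ) * Yv) := by
      rw [h4, hD, hX]
      field_simp
      ring
    rw [h5] at h3
    exact le_of_mul_le_mul_left h3 (by positivity)
  have hfin := form_bound c q (fun i j => by exact_mod_cast hcq i j) x hxi
  refine hfin.trans (le_of_eq ?_)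
  push_cast
  ring

end Pool.Agent.U803.WN
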